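import Pool.Agent.Y134.Cyc.Tate

/-!
# Tate classes on `w ^ (p ^ s) = F(x, y)` and cyclotomic factors of the zeta function of the branch
# curve modulo `p`

Let `k` be a finitely generated field that contains the roots of unity of order `p ^ s`, `p` a prime
different from the characteristic, and let `F` be a polynomial in two variables over `k` such that
the affine curve `C : F = 0` is geometrically irreducible (it may be singular). Let `X` be a smooth
projective model of the surface `w ^ (p ^ s) = F(x, y)`. If `C` is smooth with one place at infinity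
and the characteristic is `0`, then `X` is geometrically simply connected.

Let `U` be the complement of `C` in the affine plane, and for a nontrivial character `χ` of the
covering group let `W_χ` be the cohomology group of degree two with compact supports of `U` with
coefficients in the sheaf of `χ` (the other groups are zero). The span of the components of the
complement of the inverse image of `U` in `X` is nondegenerate for the intersection form, and its
orthogonal complement in `H^2(X)` is a quotient of the sum `V` of the `W_χ`. So the Tate conjecture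
for `X` holds over `k` (over a finite extension `k'`) if no nonzero vector of `V` is multiplied by the
inverse of the cyclotomic character under the Galois group of `k` (of `k'`).

Let `φ` be a Frobenius element at a place with residue field `κ` with `q` elements where everything
has good reduction. By the Grothendieck-Lefschetz formula the trace of `φ ^ [L : κ]` on `W_χ` is the
sum of `χ(N(F(x, y)))` over the points `(x, y)` of the plane over `L` (`htr`). Let
`Z = P₁ / ((1 - q T) P₂)` be the zeta function of `C` over `κ`, that is, the number of points of `C`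
over `L` is `|L| - ∑_{x ∈ B₁} x ^ [L : κ] + ∑_{x ∈ B₂} x ^ [L : κ]` where `P_j = ∏_{x ∈ B_j} (1 - x T)`.
(If `C` is smooth with one place at infinity, then `P₂ = 1` and `P₁` is the numerator of the zeta
function of the complete curve.) Let `H = P₁ / P₂` modulo `p`.

Theorem: (1) the traces of the powers of `φ` on `V` are the numbers of points of
`w ^ (p ^ s) = F(x, y)` minus `|L| ^ 2`. (2) For every `M` prime to `p`, every root of unity `ζ` of
order `M` and every `b`, the power of the cyclotomic polynomial of index `M` whose exponent is the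
total multiplicity of the eigenvalues `q ζ η`, `η ^ (p ^ b) = 1`, of `φ` on `W_χ` divides `H`.
(3) If `φ ^ m` fixes the field `k'`, and `H` is not divisible by the cyclotomic polynomials modulo `p`
of index `M` for the divisors `M` of `m` prime to `p`, then there are no Tate classes over `k'` in `V`:
for `k' = k` the condition is that `p` does not divide `H(1)`, for example that `p` does not divide the
number of points of the Jacobian of `C` over `κ`. (4) If `H` is not divisible by any cyclotomic
polynomial modulo `p` of index prime to `p`, then there are no Tate classes in `V` over any finite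
extension of `k`.

For example, for `p = 2`, `κ` with `3` elements and
`F = y ^ 5 + 2 y ^ 4 + x ^ 2 y ^ 3 + 2 x y ^ 3 + x ^ 3 y ^ 2 + 2 x ^ 2 y ^ 2 + x y ^ 2 + 2 y ^ 2`
`+ 2 x ^ 4 y + 2 x ^ 3 y + x ^ 2 y + x ^ 7 + x ^ 6 + x ^ 5 + 2 x ^ 4`
a computer calculation gives for `H` an irreducible polynomial of degree `24` that is not a
cyclotomic polynomial; so (4) holds for all polynomials over number fields with this reduction, and
the surfaces `w ^ 2 = F(x, y)` have `p_g = 2`.
-/

set_option autoImplicit false

namespace Pool.Agent.Results.MP_1bad5e_ag.CyclotomicBranchCurve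

open Finset Polynomial Pool.Agent.Y134.Cyc

theorem result (p s : ℕ) (hp : p.Prime) (hs : 1 ≤ s)
    (κ : Type) [Field κ] [Fintype κ] (hκ : p ^ s ∣ Fintype.card κ - 1)
    (F : MvPolynomial (Fin 2) κ) (E : Type) [Field E] [CharZero E] [IsAlgClosed E]
    -- the zeta function of the branch curve
    (P₁ P₂ : ℤ[X]) (hP₁ : P₁.coeff 0 = 1) (hP₂ : P₂.coeff 0 = 1) (B₁ B₂ : Multiset E)
    (hB₁ : P₁.map (Int.castRingHom E) = (B₁.map fun x => 1 - C x * X).prod)
    (hB₂ : P₂.map (Int.castRingHom E) = (B₂.map fun x => 1 - C x * X).prod)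
    (hC : ∀ (L : Type) [Field L] [Fintype L] [Algebra κ L],
      (curvePoints F L : E) = Fintype.card L - (B₁.map fun x => x ^ Module.finrank κ L).sum
          + (B₂.map fun x => x ^ Module.finrank κ L).sum)
    (H : (ZMod p)[X])
    (hH : H * P₂.map (Int.castRingHom (ZMod p)) = P₁.map (Int.castRingHom (ZMod p)))
    -- the cohomology of the surface
    (G : Type) [Group G] (V : Type) [AddCommGroup V] [Module E V] [FiniteDimensional E V]
    (ρ : Representation E G V) (χ : MulChar κ E) (hχ : orderOf χ = p ^ s)
    (W : Fin (p ^ s - 1) → Submodule E V) (hW : DirectSum.IsInternal W)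
    (φ : G) (hstab : ∀ j, ∀ v ∈ W j, ρ φ v ∈ W j)
    (htr : ∀ (j : Fin (p ^ s - 1)) (L : Type) [Field L] [Fintype L] [Algebra κ L],
      LinearMap.trace E (W j) (((ρ φ).restrict (hstab j)) ^ Module.finrank κ L)
        = charSum (χ ^ ((j : ℕ) + 1)) F L) :
    -- the points of the surface
    (∀ (L : Type) [Field L] [Fintype L] [Algebra κ L],
      LinearMap.trace E V ((ρ φ) ^ Module.finrank κ L)
        = surfacePoints (p ^ s) F L - (Fintype.card L : E) ^ 2) ∧
    -- the multiplicities of the eigenvalues
    (∀ (j : Fin (p ^ s - 1)) (M b : ℕ) (ζ : E), 0 < M → ¬ p ∣ M → IsPrimitiveRoot ζ M →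
      cyclotomic M (ZMod p) ^ (∑ η ∈ nthRootsFinset (p ^ b) (1 : E),
        Module.finrank E (Module.End.maxGenEigenspace ((ρ φ).restrict (hstab j))
          ((Fintype.card κ : E) * (ζ * η)))) ∣ H) ∧
    -- Tate classes
    (∀ (ε : G →* E), ε φ = Fintype.card κ → ∀ (G' : Subgroup G) (m : ℕ), 0 < m → φ ^ m ∈ G' →
      (∀ M : ℕ, M ∣ m → ¬ p ∣ M → ¬ cyclotomic M (ZMod p) ∣ H) →
      ∀ v : V, (∀ g ∈ G', ρ g v = ε g • v) → v = 0) ∧
    ((∀ M : ℕ, 0 < M → ¬ p ∣ M → ¬ cyclotomic M (ZMod p) ∣ H) →
      ∀ (ε : G →* E), ε φ = Fintype.card κ → ∀ (G' : Subgroup G), G'.FiniteIndex →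
      ∀ v : V, (∀ g ∈ G', ρ g v = ε g • v) → v = 0) := by
  obtain ⟨h1, h2, h3⟩ := tate_main hp hs hκ F χ hχ P₁ P₂ hP₁ hP₂ B₁ B₂ hB₁ hB₂ hC H hH (ρ φ) W hW
    hstab htr
  have h4 : ∀ (ε : G →* E), ε φ = Fintype.card κ → ∀ (G' : Subgroup G) (m : ℕ), 0 < m →
      φ ^ m ∈ G' → (∀ M : ℕ, M ∣ m → ¬ p ∣ M → ¬ cyclotomic M (ZMod p) ∣ H) →
      ∀ v : V, (∀ g ∈ G', ρ g v = ε g • v) → v = 0 := by
    intro ε hε G' m hm hmG hM v hv
    refine h3 m hm hM v ?_
    have h5 := hv _ hmG
    rwa [map_pow, map_pow, hε] at h5
  refine ⟨h1, h2, h4, ?_⟩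
  intro hM ε hε G' hG' v hv
  obtain ⟨m, hm, -, hmG⟩ := G'.exists_pow_mem_of_index_ne_zero hG'.index_ne_zero φ
  exact h4 ε hε G' m hm hmG (fun M hMm => hM M (Nat.pos_of_dvd_of_pos hMm hm)) v hv

end Pool.Agent.Results.MP_1bad5e_ag.CyclotomicBranchCurve
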