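import Pool.Agent.Y160.T2.Main

/-!
# The Tate conjecture for every prime over number fields for surfaces of general type
# `w ^ q = ∏ (x ^ M + τ - ρ_i) + (β + c t ^ (p ^ d)) ^ q`

Let `p` be a prime, `q` a power of `p`, `m ≥ 1` prime to `p`; `O` a discrete valuation ring with the
field of fractions `k` and a local homomorphism `π : O → F` to a field `F` (for example the residue
field). Let `ρ_i`, `γ_i`, `β`, `τ`, `c` be in `O`, where `∏ (x - γ_i) = ∏ (x - ρ_i) + β ^ q`, such that the
images in `F` satisfy: the classes of `γ_j - ρ_i` and of `ρ_i - ρ_j` in `F* / F* ^ p` have no other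
relations than the obvious ones (`IsResidue`), the binomials `x ^ M + τ - ρ_i` and `x ^ M + τ - γ_i` are
irreducible over `F`, where `M` is prime to `p` and the characteristic of `F` (`IsBinom`), and `c ≠ 0`.
Let `X` be the surface

  `w ^ q = ∏ (x ^ M + τ - ρ_i) + (β + c t ^ (p ^ d)) ^ q`,  `d ≥ 1`,

over `k`, and `X_F` the surface over `F` given by the images of the coefficients. Let `J` and `J_F` be
the Jacobians of their generic fibres over `k(t)` and `F(t)`.

Theorem. 1. Both `J(k(t))` and `J_F(F(t))` have a basis at `p` with `(m - 1) (q - 1)` elements, the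
`p`-primary parts of the Tate-Shafarevich groups of `J` and of `J_F` are zero, and the Tate conjecture
at the prime `p` holds for `X`.
2. For all `p`, `q`, `m` and all primes `p₀ ≠ p` prime to `m` there are a number field `k`, such a ring
`O` with a finite field `F` of characteristic `p₀`, and `ρ`, `γ`, `β`, `τ` with `π(τ) ≠ 0` and `N > 1`
which satisfy the conditions for all `M = N ^ e`. (So `d ≥ 1`, `e ≥ 0` and `c` with `π(c) ≠ 0` are
arbitrary, and the geometric genus of the surfaces over the fixed number field `k` is unbounded. The
families of curves over the line with coordinate `t` are not isotrivial for `e ≥ 1`, `m ≥ 2`.)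

Consequence: the Tate conjecture for divisors for `X` and every prime `ℓ`, if `k` is finitely
generated over its prime field and `F` is finite of characteristic prime to `m`. Indeed, the affine
surface is smooth, its fibres over the affine line are irreducible, and it is a quasi-smooth
hypersurface at infinity in a weighted projective space whose weights are prime to the characteristic
of `F`; so a smooth projective model of `X` has good reduction, a model of `X_F`, and
`H ^ 2` is the sum of the span `B` of the curves in the complement of the affine surface and of its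
orthogonal complement `B'`. The classes of the invariants of Galois in `B'` specialize to
classes of Frobenius invariants. As the Tate-Shafarevich group of `J_F` has finite `p`-primary part, the
Tate conjecture holds for `X_F` and all primes (Artin, Tate, Milne), so the dimension of the space of
the Frobenius invariants is the rank of `J_F(F(t))`, which is equal to the rank of `J(k(t))`. The surface `X` is geometrically simply connected:
quasi-smooth hypersurfaces of dimension two in weighted projective spaces and the resolutions of their
cyclic quotient singularities are simply connected; in positive characteristic we lift the equation and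
specialize the fundamental group.
-/

set_option autoImplicit false

namespace Pool.Agent.Results.MP_1bad5e_ag.EveryPrimeNumberFields

open Polynomial Pool.Agent.TH115.GD Pool.Agent.Y160.SL

theorem result {p s m : ℕ} (hp : p.Prime) (hm : 0 < m) (hcop : p.Coprime m) :
    (∀ (O k F : Type) [CommRing O] [IsDomain O] [IsDiscreteValuationRing O] [Field k] [Algebra O k]
      [IsFractionRing O k] [Field F] (π : O →+* F) [IsLocalHom π] (ζ : O) (ρ γ : Fin m → O)
      (β τ c : O) (M d : ℕ), IsPrimitiveRoot ζ (p ^ (s + 1)) → IsPrimitiveRoot (π ζ) (p ^ (s + 1)) →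
      IsReduction π p (p ^ (s + 1)) M ρ γ β τ → 0 < d → π c ≠ 0 →
      (∀ (k' K L : Type) [Field k'] [Algebra k k'] [Field K] [Algebra k[X] K] [IsFractionRing k[X] K]
        [Field L] [Algebra k'[X] L] [IsFractionRing k'[X] L] [Algebra K L], IsTower k k' K L →
        Concl p (p ^ (s + 1)) (m - 1) k k' L
          (surfOver (algebraMap O k) (p ^ (s + 1)) M (p ^ d) ρ τ β c K)) ∧
      ∀ (K : Type) [Field K] [Algebra F[X] K] [IsFractionRing F[X] K],
        ShaBasis p (p ^ (s + 1)) (m - 1) F (surfOver π (p ^ (s + 1)) M (p ^ d) ρ τ β c K)) ∧
    (∀ p₀ : ℕ, p₀.Prime → p₀ ≠ p → p₀.Coprime m →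
      ∃ (k O F : Type) (_ : Field k) (_ : NumberField k) (_ : CommRing O) (_ : IsDomain O)
        (_ : IsDiscreteValuationRing O) (_ : Algebra O k) (_ : IsFractionRing O k) (_ : Field F)
        (π : O →+* F) (_ : IsLocalHom π) (ζ : O) (ρ γ : Fin m → O) (β τ : O) (N : ℕ),
        Finite F ∧ CharP F p₀ ∧ IsPrimitiveRoot ζ (p ^ (s + 1)) ∧
        IsPrimitiveRoot (π ζ) (p ^ (s + 1)) ∧ π τ ≠ 0 ∧ 1 < N ∧
        ∀ e : ℕ, IsReduction π p (p ^ (s + 1)) (N ^ e) ρ γ β τ) :=
  ⟨fun O k F _ _ _ _ _ _ _ π _ ζ ρ γ β τ c M d hζ hζF h hd hc =>
      ⟨fun k' K L _ _ _ _ _ _ _ _ _ hT =>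
        Pool.Agent.Y160.T2.over_k π hp rfl hm hcop hζ h hd hc hT,
      fun K _ _ _ => Pool.Agent.Y160.T2.over_F π hp rfl hm hcop hζF h hd hc K⟩,
    fun p₀ hp₀ hne hcop₀ => Pool.Agent.Y160.T2.exRed hp hm hcop hp₀ hne hcop₀⟩

end Pool.Agent.Results.MP_1bad5e_ag.EveryPrimeNumberFields
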