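import Pool.Agent.Y164.NZ.Two

/-!
# The Tate conjecture over number fields for most of the surfaces `y ^ 2 = D(t) (x - b 1(t)) ⋯ (x - b n(t))`

Let `k₀` be a number field (for example `ℚ`), `O₀` its ring of integers, `n = 2 g + 1 ≥ 3`, and let
`b 1, …, b n` be polynomials over `O₀` such that all the differences `b i - b j` (`i ≠ j`) have the same
degree `N ≥ 1` and the product of the differences `b i - b j`, `i < j`, is squarefree over `k₀`. (For
example `N = 1`, `b i = c i t + (c i) ^ 2`, where the `c i` are distinct elements of `O₀` such that the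
sums `c i + c j`, `i < j`, are distinct.) Let `k` be any finite extension of `k₀` which contains a square
root of `-1`. For a monic polynomial `D` over `O₀` let `J_D` be the Jacobian of the curve of genus `g`

`y ^ 2 = D(t) (x - b 1) ⋯ (x - b n)`

over `k₀(t)` (for `n = 3`, a quadratic twist of an elliptic curve with points of order 2).

Theorem. For every `η > 0` there is a nonzero ideal `M` of `O₀` such that, for all large `m` with `m + N`
odd, for at least the proportion `1 - η` of the monic polynomials `E` of degree `m` over `O₀ / M`, EVERY
monic `D` over `O₀` congruent to `E` modulo `M` has the following property: there is a reduction `r` of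
the ring of integers of `k` modulo a prime, onto a finite field `F` of odd characteristic containing a
square root of `-1`, such that `D` is squarefree and prime to the differences over `F`, the differences
have the same degree `N` and a squarefree product over `F`, and for the Jacobian `J` over `F(t)` of the
reduced curve:

1. every point of `J(F(t))` is the sum of a point killed by `2` and of twice a point, so `J(F(t))` is
  finite (it is finitely generated);
2. all classes in `H ^ 1 (F(t), J)` killed by a power of `2` which are trivial over the completions of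
  `F(t)` at all the maximal ideals of `F[t]` are zero.

So a random polynomial `D` over `O₀` of large degree with coefficients in a fixed box (a fixed number of
complete sets of residues modulo `M`) has this property with probability at least `1 - η`.

Let `X_D` be a smooth projective model over `k₀` of the surface `y ^ 2 = D ∏ (x - b i)`. It is
geometrically simply connected: the fibration over the `t`-line has a section, and the fibres over the
zeros of `D` are trees of rational curves. The property gives the Tate conjecture for the divisors on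
`X_D` over `k`, at all primes `ℓ`: `X_D` has good reduction at the prime of `k` given by `r`; over `F` the
rank is zero and the Brauer group has trivial `2`-primary part, so by Artin, Tate and Milne all the Tate
classes of the reduction are combinations of the classes of the components of the fibres and of a
section; these lift to divisors on `X_D`, and the specialisation of the Tate classes is injective. The
Tate conjecture for `X_D` over `k` implies that over all the fields between `k₀` and `k`, so it holds over
`k₀` itself, and for the classes fixed by any given open subgroup of the Galois group of `k₀`.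

The proof: there are infinitely many primes `P` of `k` which have degree one over the prime `p` of `k₀`
below, so that `F = O₀ / p`. Over `F(t)` a sixth of the twists is good
(`MP_60d5ce_nt.HyperellipticTwists`); finally many primes `p` are used at the same time.
-/

set_option autoImplicit false
set_option linter.all false

namespace Pool.Agent.Results.MP_1bad5e_ag.HyperellipticSurfaces

open Polynomial Filter NumberField IsDedekindDomain
open Pool.Agent.Y713.Jac (J mapJ ShaPrimaryTrivial)
open scoped Classical

/-- The product of the differences `b i - b j`, `i < j`. -/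
noncomputable def differences {A : Type} [CommRing A] {n : ℕ} (b : Fin n → A[X]) : A[X] :=
  ∏ x ∈ (Finset.univ : Finset (Fin n × Fin n)).filter (fun x => x.1 < x.2), (b x.1 - b x.2)

/-- The monic squarefree polynomials `D` of degree `m` prime to the differences `b i - b j`. -/
def Twists {k : Type} [Field k] {n : ℕ} (b : Fin n → k[X]) (m : ℕ) : Set k[X] :=
  {D | D.Monic ∧ D.natDegree = m ∧ Squarefree D ∧ ∀ i j, i ≠ j → IsCoprime D (b i - b j)}

/-- The polynomial `D(t) ∏ (x - b i)` in `x` over `K = k(t)`. -/
noncomputable def twist {k : Type} [Field k] (K : Type) [Field K] [Algebra k[X] K] {n : ℕ}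
    (b : Fin n → k[X]) (D : k[X]) : K[X] :=
  C (algebraMap k[X] K D) * ∏ i, (X - C (algebraMap k[X] K (b i)))

/-- Every element of the group is the product of an element killed by `2` and of a square. -/
def TorsionTimesSquares (G : Type) [CommGroup G] : Prop :=
  ∀ P : G, ∃ T Q : G, T ^ 2 = 1 ∧ P = T * Q ^ 2

section cohomology

/-- The absolute Galois group of `K`. -/
def Galois (K : Type) [Field K] : Type := SeparableClosure K ≃ₐ[K] SeparableClosure K

noncomputable instance galoisGroup (K : Type) [Field K] : Group (Galois K) :=
  (inferInstance : Group (SeparableClosure K ≃ₐ[K] SeparableClosure K))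

noncomputable instance galoisTopology (K : Type) [Field K] : TopologicalSpace (Galois K) :=
  (inferInstance : TopologicalSpace (SeparableClosure K ≃ₐ[K] SeparableClosure K))

/-- The embeddings `K^sep → E^sep` over `K`. -/
def Embeddings (K E : Type) [Field K] [Field E] [Algebra K E] : Type :=
  SeparableClosure K →ₐ[K] SeparableClosure E

variable (ℓ : ℕ) {K : Type} [Field K] (f : K[X])

/-- The group `J(E^sep)`, `J` the Jacobian of `y ^ ℓ = f(x)`, `E` an extension of `K`. -/
def JSep (E : Type) [Field E] [Algebra K E] : Type := J ℓ f (SeparableClosure E)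

noncomputable instance jsepGroup (E : Type) [Field E] [Algebra K E] : CommGroup (JSep ℓ f E) :=
  (inferInstance : CommGroup (J ℓ f (SeparableClosure E)))

/-- The action of the Galois group of `K` on `J(K^sep)`. -/
noncomputable def act (σ : Galois K) (P : JSep ℓ f K) : JSep ℓ f K :=
  mapJ ℓ f (AlgEquiv.toAlgHom (show SeparableClosure K ≃ₐ[K] SeparableClosure K from σ)) P

/-- The action of the Galois group of `E` on `J(E^sep)`. -/
noncomputable def actOver (E : Type) [Field E] [Algebra K E] (τ : Galois E) (P : JSep ℓ f E) :
    JSep ℓ f E :=
  mapJ ℓ f ((AlgEquiv.toAlgHom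
    (show SeparableClosure E ≃ₐ[E] SeparableClosure E from τ)).restrictScalars K) P

/-- The homomorphism `J(K^sep) → J(E^sep)` given by an embedding. -/
noncomputable def embed (E : Type) [Field E] [Algebra K E] (ι : Embeddings K E)
    (P : JSep ℓ f K) : JSep ℓ f E :=
  mapJ ℓ f (show SeparableClosure K →ₐ[K] SeparableClosure E from ι) P

/-- `σ` is the restriction of `τ` under the embedding `ι`. -/
def Restricts {E : Type} [Field E] [Algebra K E] (ι : Embeddings K E) (τ : Galois E)
    (σ : Galois K) : Prop :=
  ∀ x : SeparableClosure K, (show SeparableClosure E ≃ₐ[E] SeparableClosure E from τ)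
      ((show SeparableClosure K →ₐ[K] SeparableClosure E from ι) x) =
    (show SeparableClosure K →ₐ[K] SeparableClosure E from ι)
      ((show SeparableClosure K ≃ₐ[K] SeparableClosure K from σ) x)

/-- Continuous 1-cocycles with values in the discrete group `J(K^sep)`. -/
def IsCocycle (c : Galois K → JSep ℓ f K) : Prop :=
  IsLocallyConstant c ∧ ∀ σ τ, c (σ * τ) = c σ * act ℓ f σ (c τ)

/-- Coboundaries. -/
def IsCoboundary (c : Galois K → JSep ℓ f K) : Prop := ∃ Q, ∀ σ, c σ = act ℓ f σ Q / Q

/-- The restriction of the class of the cocycle `c` to `H ^ 1 (E, J)` is zero: for an embedding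
`ι : K^sep → E^sep` over `K` there is `P ∈ J(E^sep)` with `c(τ|K^sep) = τ P / P` for every
`τ ∈ Gal(E^sep / E)`. -/
def IsTrivialOver (E : Type) [Field E] [Algebra K E] (c : Galois K → JSep ℓ f K) : Prop :=
  ∃ (ι : Embeddings K E) (P : JSep ℓ f E), ∀ (τ : Galois E) (σ : Galois K), Restricts ι τ σ →
    embed ℓ f E ι (c σ) = actOver ℓ f E τ P / P

variable (R : Type) [CommRing R] [IsDedekindDomain R] [Algebra R K] [IsFractionRing R K]

/-- The class of `c` is zero over the completion of `K = Frac R` at every maximal ideal of `R`. -/
def IsLocallyTrivial (c : Galois K → JSep ℓ f K) : Prop :=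
  ∀ v : HeightOneSpectrum R, IsTrivialOver ℓ f (v.adicCompletion K) c

/-- The `ℓ`-primary part of the group of classes in `H ^ 1 (K, J)` which are zero over the
completions of `K` at all maximal ideals of `R` is zero. -/
def ShaTrivial : Prop :=
  ∀ (c : Galois K → JSep ℓ f K) (m : ℕ), IsCocycle ℓ f c → IsLocallyTrivial ℓ f R c →
    IsCoboundary ℓ f (fun σ => c σ ^ ℓ ^ m) → IsCoboundary ℓ f c

theorem sha_iff : ShaTrivial ℓ f R ↔ ShaPrimaryTrivial ℓ f R := Iff.rfl

end cohomology

/-- For the Jacobian `J_D` of the curve `y ^ 2 = D ∏ (x - b i)` over `K = k(t)`, the group `J_D(K)` is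
`J_D(K)[2] + 2 J_D(K)`, and the 2-primary part of the group of the classes in `H ^ 1 (K, J_D)` which are
trivial over the completions of `K` at the maximal ideals of `k[t]` is zero. -/
def IsGood {k : Type} [Field k] (K : Type) [Field K] [Algebra k[X] K] [IsFractionRing k[X] K]
    {n : ℕ} (b : Fin n → k[X]) (D : k[X]) : Prop :=
  ShaTrivial 2 (twist K b D) k[X] ∧ TorsionTimesSquares (J 2 (twist K b D) K)

/-- `r` is a reduction of `A` onto a field of characteristic not 2 with a square root of `-1` such that
the reduced branch points have the same properties. -/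
structure IsGoodPrime {A : Type} [CommRing A] {n : ℕ} (N : ℕ) (b : Fin n → A[X])
    {F : Type} [Field F] (r : A →+* F) : Prop where
  surjective : Function.Surjective r
  two : (2 : F) ≠ 0
  root : IsSquare (-1 : F)
  degree : ∀ i j, i ≠ j → ((b i).map r - (b j).map r).natDegree = N
  squarefree : Squarefree (differences (fun i => (b i).map r))

/-- The reduction of `D` modulo some prime is squarefree and prime to the differences, and it is
good. -/
def IsGoodModuloPrime {A : Type} [CommRing A] {n : ℕ} (N : ℕ) (b : Fin n → A[X])
    (D : A[X]) : Prop :=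
  ∃ (F : Type) (_ : Field F) (_ : Finite F) (r : A →+* F), IsGoodPrime N b r ∧
    D.map r ∈ Twists (fun i => (b i).map r) D.natDegree ∧
    IsGood (RatFunc F) (fun i => (b i).map r) (D.map r)

theorem isGood_iff {k : Type} [Field k] (K : Type) [Field K] [Algebra k[X] K]
    [IsFractionRing k[X] K] {n : ℕ} (b : Fin n → k[X]) (D : k[X]) :
    Pool.Agent.Y164.HG.Good K b D ↔ IsGood K b D := by
  unfold IsGood
  rw [sha_iff]
  exact Iff.rfl

theorem good_iff {A : Type} [CommRing A] {n : ℕ} (N : ℕ) (b : Fin n → A[X]) (D : A[X]) :
    Pool.Agent.Y164.NZ.GoodTwo N b D ↔ IsGoodModuloPrime N b D := by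
  constructor
  · rintro ⟨F, i1, i2, r, h, h2, h3⟩
    exact ⟨F, i1, i2, r, ⟨h.surj, h.two, h.sqr, h.deg, h.sq⟩, h2, (isGood_iff _ _ _).1 h3⟩
  · rintro ⟨F, i1, i2, r, h, h2, h3⟩
    exact ⟨F, i1, i2, r, ⟨h.surjective, h.two, h.root, h.degree, h.squarefree⟩, h2,
      (isGood_iff _ _ _).2 h3⟩

section
variable {k₀ : Type} [Field k₀] [NumberField k₀]

/-- The polynomial `p` over the ring of integers of `k₀` as a polynomial over the ring of integers of
`k`. -/
noncomputable def overIntegers (k : Type) [Field k] [NumberField k] [Algebra k₀ k]
    (p : (𝓞 k₀)[X]) : (𝓞 k)[X] :=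
  p.map (algebraMap (𝓞 k₀) (𝓞 k))

/-- The monic polynomials `E` of degree `m` over `O₀ / M` such that all monic polynomials over `O₀`
congruent to `E` modulo `M` are good modulo a prime of `k`. -/
def goodClasses (k : Type) [Field k] [NumberField k] [Algebra k₀ k] {n : ℕ} (N : ℕ)
    (b : Fin n → (𝓞 k₀)[X]) (M : Ideal (𝓞 k₀)) (m : ℕ) : Set (𝓞 k₀ ⧸ M)[X] :=
  {E | E.Monic ∧ E.natDegree = m ∧ ∀ D : (𝓞 k₀)[X], D.Monic →
    D.map (Ideal.Quotient.mk M) = E →
      IsGoodModuloPrime N (fun i => overIntegers k (b i)) (overIntegers k D)}

end

theorem result {k₀ k : Type} [Field k₀] [NumberField k₀] [Field k] [NumberField k] [Algebra k₀ k]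
    (hi : IsSquare (-1 : k)) {n : ℕ} (hn : Odd n) (hn3 : 3 ≤ n) {N : ℕ} (hN : 1 ≤ N)
    (b : Fin n → (𝓞 k₀)[X]) (hb : ∀ i j, i ≠ j → (b i - b j).natDegree = N)
    (hs : Squarefree ((differences b).map (algebraMap (𝓞 k₀) k₀))) (η : ℝ) (hη : 0 < η) :
    ∃ M : Ideal (𝓞 k₀), M ≠ ⊥ ∧ ∀ᶠ m : ℕ in atTop, Odd (m + N) →
      (1 - η) * (Nat.card (𝓞 k₀ ⧸ M) : ℝ) ^ m ≤ ((goodClasses k N b M m).ncard : ℝ) := by
  obtain ⟨M, hM, h⟩ := Pool.Agent.Y164.NZ.final_two hi hn hn3 hN b hb hs η hη
  refine ⟨M, hM, ?_⟩
  filter_upwards [h] with m hm h1
  have h3 := hm h1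
  refine h3.trans (le_of_eq ?_)
  congr 2
  ext E
  refine and_congr Iff.rfl (and_congr Iff.rfl (forall_congr' fun D => ?_))
  exact imp_congr Iff.rfl (imp_congr Iff.rfl (good_iff _ _ _))

end Pool.Agent.Results.MP_1bad5e_ag.HyperellipticSurfaces
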