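import Pool.Agent.Y134.UL.GeoA

/-!
# The Tate conjecture for cyclic coverings and the torsion of the branch divisor

Let `W` be a Weil cohomology theory (étale cohomology with coefficients in the closure of `ℚ_p`) on a
class of smooth projective varieties over the algebraic closure of a finitely generated field, with an
action of a group `Γ` (the Galois group) on the cohomology of the variety `X` under consideration; `χ`
is the action on the Tate twists.

Let `X` be a variety of even dimension `n` whose cohomology is the orthogonal sum of a space spanned by
some algebraic classes (of which nothing else is supposed) and of a subspace `P` of the cohomology in
degree `n`: for instance a cyclic covering of projective space (`P` is the part on which the group of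
the covering has no invariants) or a hypersurface (`P` is the primitive cohomology). Suppose that `P`
is spanned by the images of a finite dimensional representation `F` of `Γ` over a field `K₀` under
equivariant maps (up to the twist) which are semilinear with respect to embeddings of `K₀` (`Rep.Spans`: for instance
`P = K ⊗_ℚp F` for a finite extension `K₀` of `ℚ_p`), that the image of `Γ` on `F` is not a torsion
group, and that there are (`IsOneSub`)

* a local subring `R` of `K₀` with the maximal ideal `l R`, stable under an endomorphism `τ` of `K₀`,
  and a nondegenerate hermitian or skew hermitian form `h` on `F` with respect to `τ` which is invariant
  under `Γ` (for `τ = id`: a symmetric or alternating form);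
* a lattice `Λ` in `F`, stable under `Γ`, on which `h` is integral, and a vector `r` in `Λ` whose class
  generates the radical of the reduction of `h` on `Λ / l Λ`, where `h(r, r) / l` is a unit (or `r = 0`);
* `Λ / l Λ` contains no subspace which is stable under `Γ`, except for `0`, `Λ / l Λ` and the
  line generated by the class of `r`.

**Theorem.** `P` is the transcendental cohomology of `X`, the orthogonal complement of all algebraic
classes; numerical and homological equivalence coincide for `X`; and the Tate conjecture holds for `X`
in all codimensions (over all finite extensions of the base field).

NOTHING is supposed about monodromy, about the irreducibility of `P` (over `K₀`, over its extensions or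
under subgroups of finite index), about the algebraic classes of `X` (standard conjectures) or about its
Hodge numbers.

The main case. Let `p` be a prime number, `k` a finitely generated field of characteristic different
from `p` which contains the `p`-th roots of unity, and `B` a smooth hypersurface in `ℙ^n` over `k`,
`n` even, such that `p` divides the degree of `B`; let `X` be the cyclic covering of degree `p` of
`ℙ^n` which is branched along `B`, `w ^ p = f`. Then `H^n(X, ℤ_p) (n / 2)` contains the lattice `Λ` of
the elements with trace `0`, a module over `ℤ_p[ζ_p]` with a skew hermitian form which comes from the
intersection form; its discriminant is a unit times `λ` (a generator of the maximal ideal), and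
`Λ / λ Λ` is an extension of `H^(n-1)(B, 𝔽_p(n/2 - 1))` (up to duality) by the trivial module
`𝔽_p r`, dual to the extension
`0 → H^(n-1)(B, 𝔽_p(n/2)) → H^n_c(ℙ^n \ B, 𝔽_p(n/2)) → 𝔽_p → 0`. So the hypotheses of the theorem are
satisfied if the Galois module `H^(n-1)(B, 𝔽_p)` is irreducible, if this extension does not split, and if
the image of the Galois group on `H^n(X)` is not a torsion group (which is always true in
characteristic `0` if the geometric genus of `X` is positive). For surfaces, `n = 2`, the extension is
the one of the `p`-th roots of the divisor class `O_B(1)`, and so we have:

*Let `B` be a smooth plane curve, whose degree is divisible by `p`, such that the Galois module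
`J(B)[p]` is irreducible and such that there is no divisor class `D` with `p D = O_B(1)` which is fixed
by the Galois group. Then the Tate conjecture is true (over all finite extensions of `k`) for the surface
`w ^ p = f(x, y, z)` which is branched along `B`: its transcendental cohomology is everything except
for the class of the hyperplane section, and its geometric Picard number is one (if the image of
the Galois group is infinite, for instance if the characteristic is `0` and the degree is at least
`5`).*

For `p = 2` (double planes branched along curves of even degree) the second condition says that no theta
characteristic of `B` is fixed by the Galois group; it is an exact analogue for double planes of the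
theorems of Zarhin on the endomorphisms of hyperelliptic Jacobians (`n = 1`), where `B` is a set of
points and its permutation module modulo `2` is used. Both conditions are satisfied if the image of
the Galois group in the group `Sp(J(B)[2])` is everything.

Other cases. For a hypersurface (a complete intersection, a variety with `H^*(X, ℚ_l)` generated by one
class `u` of degree `2` except for the part `P`) of degree `d` and of even dimension let `Λ` be the lattice
`P ∩ H^n(X, ℤ_l)`, `l` a prime number which divides `d` exactly once: then `r` is the element
`l (u^(n/2) / d - x)` with an `x` such that `x u^(n/2) = 1` (for instance K3 surfaces of degree `2 d'`
with `d'` odd, `l = 2`).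

Proof. Let `U` be a stable subspace of `F`, different from `0`. The reduction of `U ∩ Λ` is the line of
`r` or everything. If it is everything then the reduction of the intersection of `Λ` with the orthogonal
complement `W` of `U` is in the radical; so `W = 0` (and then `U` is everything) or this reduction is the
line of `r`. If the reduction of `U ∩ Λ` (or `W ∩ Λ`) is the line of `r`, then it follows from
`h(r, r) / l` being a unit that `U` is a line, generated by a vector `e`, and that
`h(x, e) / h(e, e)` is integral for all `x` in `Λ`; the vectors in `Λ` for which this value is divisible
by `l` are a stable sublattice whose reduction is a complement of the line of `r`, so that `Λ / l Λ` is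
the line of `r`, and `U` is everything. So `F` is irreducible under `Γ`. Let `x` be a vector in `P` fixed
(up to the twist) by a normal subgroup `Δ` of `Γ` of finite index. The span of the vectors
`g y - y`, `g` in `Δ`, is stable under `Γ`, and it is not zero since the image of `Γ` is not a torsion
group; so it is `F`, and `x` is orthogonal to the images of `F`, hence to `P`, and `x = 0`.
-/

set_option autoImplicit false

universe u

namespace Pool.Agent.Results.MP_1bad5e_ag.TorsionOfBranchDivisor

open Pool.Agent.H914 Pool.Agent.H281R3.HT Pool.Agent.TH125.Gal Pool.Agent.Y134.TF
  Pool.Agent.Y134.UL

/-- **The Tate conjecture from the torsion of the branch divisor.** -/
theorem result {k : Type u} [Field k] {𝒱 : VarClass k} {ops : CycleOps 𝒱}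
    {W : WeilCohomology.{u, 0} ops} {Γ : Type} [Group Γ] {χ : Γ →* W.Kˣ} {X : PVar W Γ}
    (h : Cover χ X) :
    transcendental W X.X = X.P ∧ HomEqNum W X.X ∧ TateConjecture χ X.toGVar :=
  tate_of_oneSub h

end Pool.Agent.Results.MP_1bad5e_ag.TorsionOfBranchDivisor
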